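import Pool.Agent.W960.HC.Defs

/-! Differentiability of the Melnikov function and regular values. -/

open Set Topology Filter MeasureTheory

namespace Pool.Agent.W281.HC

open Pool.Agent.W960.HC

theorem kp_lt_kp {x X : ℝ} (hx : 0 ≤ x) (hxX : x < X) : kp X < kp x := by
  unfold kp
  have h1 : x ^ 2 < X ^ 2 := by nlinarith
  have h2 : X ^ 2 - x ^ 2 + 1 < Real.exp (X ^ 2 - x ^ 2) :=
    Real.add_one_lt_exp (by linarith : X ^ 2 - x ^ 2 ≠ 0)
  have h3 : Real.exp (-x ^ 2) = Real.exp (-X ^ 2) * Real.exp (X ^ 2 - x ^ 2) := by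
    rw [← Real.exp_add]; congr 1; ring
  rw [h3, mul_assoc]
  apply mul_lt_mul_of_pos_left _ (Real.exp_pos _)
  have h4 : 0 ≤ x ^ 2 := sq_nonneg x
  nlinarith

theorem kp_lt_one {X : ℝ} (hX : 0 < X) : kp X < 1 := by
  have := kp_lt_kp le_rfl hX
  simpa [kp] using this

theorem differentiableAt_et {X : ℝ} (hX : 0 < X) : DifferentiableAt ℝ et X := by
  unfold et
  apply DifferentiableAt.sqrt
  · unfold kp
    fun_prop
  · have := kp_lt_one hX
    linarith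

theorem differentiableAt_Mel (hF : ∀ a c R : ℝ, ∃ Z W, Flw a c R Z W)
    (hH : ∀ {a c R X₀ : ℝ}, 0 < X₀ → 2 + X₀ < R →
      ∀ {Z : ℝ → ℝ × ℝ → ℝ → ℝ × ℝ} {W : ℝ → ℝ × ℝ → ℝ → ℝ}, Flw a c R Z W →
      ∃ τ δ, Half a c R X₀ Z W τ δ)
    (a c : ℝ) {X : ℝ} (hX : 0 < X) : DifferentiableAt ℝ (Mel a c) X := by
  obtain ⟨Z, W, hFl⟩ := hF a c (X + 3)
  obtain ⟨τ, δ, h⟩ := hH hX (by linarith : 2 + X < X + 3) hFl
  have hδ := h.hδ
  have hbox : IsOpen (Ioo (X - δ) (X + δ) ×ˢ Ioo (-δ) δ) := isOpen_Ioo.prod isOpen_Ioo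
  have hmem : (X, (0 : ℝ)) ∈ Ioo (X - δ) (X + δ) ×ˢ Ioo (-δ) δ :=
    ⟨⟨by linarith, by linarith⟩, ⟨by simp only [Left.neg_neg_iff]; exact hδ, hδ⟩⟩
  have hτ : DifferentiableAt ℝ τ (X, (0 : ℝ)) :=
    (h.smooth.differentiableOn (by norm_num)).differentiableAt (hbox.mem_nhds hmem)
  have hτ' : DifferentiableAt ℝ (fun X' : ℝ => τ (X', (0 : ℝ))) X := by
    have : DifferentiableAt ℝ (fun X' : ℝ => (X', (0 : ℝ))) X := by fun_prop
    exact DifferentiableAt.comp (g := τ) X hτ this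
  have hW : DifferentiableAt ℝ (fun X' : ℝ => W (τ (X', 0)) (0, et X') 0) X := by
    have hWd : Differentiable ℝ (fun q : ℝ × (ℝ × ℝ) × ℝ => W q.1 q.2.1 q.2.2) :=
      hFl.smW.differentiable (by norm_num)
    have hin : DifferentiableAt ℝ
        (fun X' : ℝ => (τ (X', (0 : ℝ)), ((((0 : ℝ), et X') : ℝ × ℝ), (0 : ℝ)))) X :=
      hτ'.prodMk (((differentiableAt_const _).prodMk (differentiableAt_et hX)).prodMk
        (differentiableAt_const _))
    exact DifferentiableAt.comp (g := fun q : ℝ × (ℝ × ℝ) × ℝ => W q.1 q.2.1 q.2.2) X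
      (hWd _) hin
  have hev : (fun X' : ℝ => W (τ (X', 0)) (0, et X') 0 / 2) =ᶠ[𝓝 X] Mel a c := by
    filter_upwards [Ioo_mem_nhds (by linarith : X - δ < X) (by linarith : X < X + δ)] with X' hX'
    rw [h.mel X' hX']
    ring
  exact (hW.div_const 2).congr_of_eventuallyEq hev.symm

theorem continuous_Y (κ : ℝ) : Continuous (Y κ) := by
  unfold Y
  fun_prop

theorem Mel_sub (a a' c X : ℝ) :
    Mel a c X - Mel a' c X = (a - a') * ∫ x in (0:ℝ)..X, Real.exp (-x ^ 2) * Y (kp X) x := by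
  unfold Mel
  have hY := continuous_Y (kp X)
  rw [← intervalIntegral.integral_sub, ← intervalIntegral.integral_const_mul]
  · congr 1
    funext x
    ring
  · apply Continuous.intervalIntegrable
    fun_prop
  · apply Continuous.intervalIntegrable
    fun_prop

theorem I0_pos {X : ℝ} (hX : 0 < X) :
    0 < ∫ x in (0:ℝ)..X, Real.exp (-x ^ 2) * Y (kp X) x := by
  have hY := continuous_Y (kp X)
  apply intervalIntegral.intervalIntegral_pos_of_pos_on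
  · apply Continuous.intervalIntegrable
    fun_prop
  · intro x hx
    apply mul_pos (Real.exp_pos _)
    unfold Y
    apply Real.sqrt_pos.2
    have h1 := kp_lt_kp hx.1.le hx.2
    have h2 : kp X * Real.exp (x ^ 2) < kp x * Real.exp (x ^ 2) :=
      mul_lt_mul_of_pos_right h1 (Real.exp_pos _)
    have h3 : kp x * Real.exp (x ^ 2) = 1 + x ^ 2 := by
      unfold kp
      have : Real.exp (-x ^ 2) * Real.exp (x ^ 2) = 1 := by
        rw [← Real.exp_add]; simp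
      calc Real.exp (-x ^ 2) * (1 + x ^ 2) * Real.exp (x ^ 2)
          = (Real.exp (-x ^ 2) * Real.exp (x ^ 2)) * (1 + x ^ 2) := by ring
        _ = 1 + x ^ 2 := by rw [this, one_mul]
    linarith
  · exact hX

theorem exists_regular (hA : ∃ a c X1 X2 X3 X4 : ℝ, 0 < X1 ∧ X1 < X2 ∧ X2 < X3 ∧ X3 < X4 ∧
      0 < Mel a c X1 ∧ Mel a c X2 < 0 ∧ 0 < Mel a c X3 ∧ Mel a c X4 < 0)
    (hM : ∀ (a c : ℝ) {X : ℝ}, 0 < X → DifferentiableAt ℝ (Mel a c) X) :
    ∃ a c x₁ x₂ x₃ m₁ m₂ m₃ : ℝ, 0 < x₁ ∧ x₁ < x₂ ∧ x₂ < x₃ ∧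
    Mel a c x₁ = 0 ∧ Mel a c x₂ = 0 ∧ Mel a c x₃ = 0 ∧
    HasDerivAt (Mel a c) m₁ x₁ ∧ HasDerivAt (Mel a c) m₂ x₂ ∧ HasDerivAt (Mel a c) m₃ x₃ ∧
    m₁ ≠ 0 ∧ m₂ ≠ 0 ∧ m₃ ≠ 0 := by
  obtain ⟨a, c, X1, X2, X3, X4, h1, h12, h23, h34, p1, p2, p3, p4⟩ := hA
  set I : ℝ → ℝ := fun X => Mel 1 c X - Mel 0 c X with hI
  have hIeq : ∀ X, I X = ∫ x in (0:ℝ)..X, Real.exp (-x ^ 2) * Y (kp X) x := by
    intro X
    simp only [hI, Mel_sub]
    ring
  have hIpos : ∀ X, 0 < X → 0 < I X := fun X hX => by rw [hIeq]; exact I0_pos hX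
  have hId : ∀ X, 0 < X → DifferentiableAt ℝ I X := fun X hX => (hM 1 c hX).sub (hM 0 c hX)
  have hlin : ∀ a' X, Mel a' c X = Mel a c X + (a' - a) * I X := by
    intro a' X
    rw [hIeq, ← Mel_sub]
    ring
  set φ : ℝ → ℝ := fun X => -Mel 0 c X / I X with hφ
  set S : Set ℝ := {X | 0 < X ∧ HasDerivAt φ 0 X} with hS
  have hnull : volume (φ '' S) = 0 := by
    apply addHaar_image_eq_zero_of_det_fderivWithin_eq_zero (f' := fun _ => (0 : ℝ →L[ℝ] ℝ)) volume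
    · intro x hx
      have := hx.2.hasFDerivAt.hasFDerivWithinAt (s := S)
      simpa using this
    · intro x hx
      simp [ContinuousLinearMap.det]
  -- the sign pattern is open in `a'`
  have hopen : ∀ᶠ a' in 𝓝 a, 0 < Mel a' c X1 ∧ Mel a' c X2 < 0 ∧ 0 < Mel a' c X3 ∧
      Mel a' c X4 < 0 := by
    have hc : ∀ X, ContinuousAt (fun a' => Mel a' c X) a := by
      intro X
      have : (fun a' => Mel a' c X) = fun a' => Mel a c X + (a' - a) * I X := by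
        funext a'; exact hlin a' X
      rw [this]
      fun_prop
    filter_upwards [(hc X1).eventually_const_lt p1, (hc X2).eventually_lt_const p2,
      (hc X3).eventually_const_lt p3, (hc X4).eventually_lt_const p4] with a' q1 q2 q3 q4
    exact ⟨q1, q2, q3, q4⟩
  obtain ⟨a', ha', hnot⟩ : ∃ a', (0 < Mel a' c X1 ∧ Mel a' c X2 < 0 ∧ 0 < Mel a' c X3 ∧
      Mel a' c X4 < 0) ∧ a' ∉ φ '' S := by
    by_contra hcon
    push Not at hcon
    have hsub : {a' | 0 < Mel a' c X1 ∧ Mel a' c X2 < 0 ∧ 0 < Mel a' c X3 ∧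
      Mel a' c X4 < 0} ⊆ φ '' S := fun a' h => hcon a' h
    have hpos : 0 < volume {a' | 0 < Mel a' c X1 ∧ Mel a' c X2 < 0 ∧ 0 < Mel a' c X3 ∧
      Mel a' c X4 < 0} := Measure.measure_pos_of_mem_nhds volume hopen
    exact absurd (measure_mono_null hsub hnull) hpos.ne'
  obtain ⟨q1, q2, q3, q4⟩ := ha'
  have hcont : ∀ {u v : ℝ}, 0 < u → ContinuousOn (Mel a' c) (Icc u v) := fun {u v} hu x hx =>
    (hM a' c (lt_of_lt_of_le hu hx.1)).continuousAt.continuousWithinAt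
  have h2 : 0 < X2 := h1.trans h12
  have h3 : 0 < X3 := h2.trans h23
  obtain ⟨x₁, hx₁, z₁⟩ : ∃ x ∈ Ioo X1 X2, Mel a' c x = 0 :=
    intermediate_value_Ioo' h12.le (hcont h1) ⟨q2, q1⟩
  obtain ⟨x₂, hx₂, z₂⟩ : ∃ x ∈ Ioo X2 X3, Mel a' c x = 0 :=
    intermediate_value_Ioo h23.le (hcont h2) ⟨q2, q3⟩
  obtain ⟨x₃, hx₃, z₃⟩ : ∃ x ∈ Ioo X3 X4, Mel a' c x = 0 :=
    intermediate_value_Ioo' h34.le (hcont h3) ⟨q4, q3⟩
  have hreg : ∀ x, 0 < x → Mel a' c x = 0 → deriv (Mel a' c) x ≠ 0 := by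
    intro x hx hz hd
    apply hnot
    have hd' : HasDerivAt (Mel a' c) 0 x := by
      have := (hM a' c hx).hasDerivAt
      rwa [hd] at this
    have hI' := (hId x hx).hasDerivAt
    have hIx := (hIpos x hx).ne'
    have hq : HasDerivAt (fun X => a' - Mel a' c X / I X) 0 x := by
      have := (hd'.div hI' hIx).const_sub a'
      simpa [hz] using this
    have hev : φ =ᶠ[𝓝 x] fun X => a' - Mel a' c X / I X := by
      filter_upwards [Ioi_mem_nhds hx] with y hy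
      have hIy := (hIpos y hy).ne'
      have e1 := hlin a' y
      have e2 := hlin 0 y
      simp only [hφ]
      field_simp
      rw [e1, e2]
      ring
    refine ⟨x, ⟨hx, hq.congr_of_eventuallyEq hev⟩, ?_⟩
    rw [hev.eq_of_nhds]
    simp [hz]
  have hp1 : 0 < x₁ := h1.trans hx₁.1
  have hp2 : 0 < x₂ := h2.trans hx₂.1
  have hp3 : 0 < x₃ := h3.trans hx₃.1
  exact ⟨a', c, x₁, x₂, x₃, _, _, _, hp1, hx₁.2.trans hx₂.1, hx₂.2.trans hx₃.1, z₁, z₂, z₃,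
    (hM a' c hp1).hasDerivAt, (hM a' c hp2).hasDerivAt, (hM a' c hp3).hasDerivAt,
    hreg _ hp1 z₁, hreg _ hp2 z₂, hreg _ hp3 z₃⟩

end Pool.Agent.W281.HC
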